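import Mathlib

/-! One step of the countable construction. -/

namespace Pool.Agent.H52

open Topology Set

/-- A finite family of infinite sets has an injective choice function. -/
theorem exists_injective_choice {α ι : Type*} [Finite ι] (O : ι → Set α)
    (hO : ∀ i, (O i).Infinite) : ∃ f : ι → α, Function.Injective f ∧ ∀ i, f i ∈ O i := by
  classical
  have := Fintype.ofFinite ι
  choose t ht hcard using fun i => (hO i).exists_subset_card_eq (Fintype.card ι)
  obtain ⟨f, hf, hft⟩ := (Finset.all_card_le_biUnion_card_iff_exists_injective t).1 (by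
    intro s
    rcases s.eq_empty_or_nonempty with rfl | ⟨i, hi⟩
    · simp
    · calc s.card ≤ Fintype.card ι := Finset.card_le_univ s
        _ = (t i).card := (hcard i).symm
        _ ≤ (s.biUnion t).card := Finset.card_le_card (Finset.subset_biUnion_of_mem t hi))
  exact ⟨f, hf, fun i => ht i (hft i)⟩

/-- In a finitely generated subgroup whose nonzero members have norm at least two, only finitely
many elements lie in a given ball. -/
theorem finite_ball {V : Type*} [NormedAddCommGroup V] [NormedSpace ℝ V] (D : AddSubgroup V)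
    (hfg : D.FG) (hsep : ∀ d ∈ D, d ≠ 0 → 2 ≤ ‖d‖) (R : ℝ) :
    {d : V | d ∈ D ∧ ‖d‖ ≤ R}.Finite := by
  classical
  obtain ⟨S, hS⟩ := hfg
  let E : Submodule ℝ V := Submodule.span ℝ (S : Set V)
  have hDE : ∀ d ∈ D, d ∈ E := by
    intro d hd
    rw [← hS] at hd
    have : AddSubgroup.closure (S : Set V) ≤ E.toAddSubgroup :=
      (AddSubgroup.closure_le _).2 Submodule.subset_span
    exact this hd
  have : FiniteDimensional ℝ E := FiniteDimensional.span_finset ℝ S
  have : ProperSpace E := FiniteDimensional.proper_real E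
  let T : Set E := {e | (e : V) ∈ D}
  have hpair : T.Pairwise fun x y => (2 : ℝ) ≤ dist x y := by
    intro x hx y hy hxy
    have h1 : (x : V) - y ∈ D := D.sub_mem hx hy
    have h2 : (x : V) - y ≠ 0 := fun h => hxy (Subtype.ext (sub_eq_zero.1 h))
    have := hsep _ h1 h2
    rw [Subtype.dist_eq, dist_eq_norm]
    exact this
  have hcl : IsClosed T := Metric.isClosed_of_pairwise_le_dist (by norm_num) hpair
  have hdisc : IsDiscrete T := by
    refine ⟨DiscreteTopology.of_forall_le_dist (r := 2) (by norm_num) ?_⟩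
    intro x y hxy
    exact hpair x.2 y.2 (fun h => hxy (Subtype.ext h))
  have hfin := Metric.finite_isBounded_inter_isClosed hdisc
    (Metric.isBounded_closedBall (x := (0 : E)) (r := R)) hcl
  refine (hfin.image (Subtype.val : E → V)).subset ?_
  rintro d ⟨hdD, hdR⟩
  refine ⟨⟨d, hDE d hdD⟩, ⟨?_, hdD⟩, rfl⟩
  rw [mem_closedBall_zero_iff]
  exact hdR

theorem exists_nhds_small_osc {M : Type*} [TopologicalSpace M] [CompactSpace M]
    (E : Submodule ℝ C(M, ℝ)) [FiniteDimensional ℝ E] (R : ℝ) (x : M) :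
    ∃ N : Set M, IsOpen N ∧ x ∈ N ∧ ∀ e ∈ E, ‖e‖ ≤ R → ∀ y ∈ N, |e x - e y| ≤ 1 := by
  have : ProperSpace E := FiniteDimensional.proper_real E
  obtain ⟨t, -, htfin, htcov⟩ := (isCompact_closedBall (0 : E) R).finite_cover_balls
    (e := 1 / 4) (by norm_num)
  refine ⟨⋂ e ∈ t, {y | |(e : C(M, ℝ)) x - (e : C(M, ℝ)) y| < 1 / 2}, ?_, ?_, ?_⟩
  · refine htfin.isOpen_biInter fun e _ => ?_
    exact isOpen_lt (by fun_prop) continuous_const
  · simp
  · intro e heE heR y hy
    have hmem : (⟨e, heE⟩ : E) ∈ Metric.closedBall (0 : E) R := by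
      rw [mem_closedBall_zero_iff]; exact heR
    obtain ⟨e', he't, he'⟩ := mem_iUnion₂.1 (htcov hmem)
    have hy' : |(e' : C(M, ℝ)) x - (e' : C(M, ℝ)) y| < 1 / 2 := mem_iInter₂.1 hy e' he't
    rw [Metric.mem_ball, Subtype.dist_eq, dist_eq_norm] at he'
    have hx1 : |e x - (e' : C(M, ℝ)) x| ≤ ‖e - (e' : C(M, ℝ))‖ := by
      have := ContinuousMap.norm_coe_le_norm (e - (e' : C(M, ℝ))) x
      simpa using this
    have hy1 : |e y - (e' : C(M, ℝ)) y| ≤ ‖e - (e' : C(M, ℝ))‖ := by
      have := ContinuousMap.norm_coe_le_norm (e - (e' : C(M, ℝ))) y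
      simpa using this
    change ‖e - (e' : C(M, ℝ))‖ < 1 / 4 at he'
    rw [abs_le] at hx1 hy1 ⊢
    rw [abs_lt] at hy'
    constructor <;> linarith [hx1.1, hx1.2, hy1.1, hy1.2, hy'.1, hy'.2]

theorem infinite_of_isOpen {M : Type*} [TopologicalSpace M] [T1Space M] {B O : Set M}
    (hU : ∀ x, x ∉ B → ¬ IsOpen ({x} : Set M)) (hO : IsOpen O) (hOB : ∀ x ∈ O, x ∉ B)
    (hne : O.Nonempty) : O.Infinite := by
  intro hfin
  obtain ⟨x, hx⟩ := hne
  refine hU x (hOB x hx) ?_
  have : ({x} : Set M) = O ∩ (O \ {x})ᶜ := by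
    ext y
    constructor
    · rintro rfl
      exact ⟨hx, fun h => h.2 rfl⟩
    · rintro ⟨hyO, hy⟩
      by_contra hne
      exact hy ⟨hyO, hne⟩
  rw [this]
  exact hO.inter (hfin.subset diff_subset).isClosed.isOpen_compl

/-- Existence of a continuous perturbation with prescribed values on `B` and finitely many
points. -/
theorem exists_perturbation {M : Type*} [TopologicalSpace M] [CompactSpace M] [T2Space M]
    {B : Set M} (hB : IsClosed B) {ι : Type*} [Finite ι] (f : ι → M) (hf : Function.Injective f)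
    (hfB : ∀ i, f i ∉ B) (u : C(M, ℝ)) {τ : ℝ} (hτ : 0 ≤ τ) (hu : ∀ x ∈ B, |u x| ≤ τ)
    (val : ι → ℝ) (hval : ∀ i, |val i| ≤ τ) :
    ∃ v : C(M, ℝ), (∀ x, |v x| ≤ τ) ∧ (∀ x ∈ B, v x = - u x) ∧ ∀ i, v (f i) = val i := by
  classical
  let φ : M → ℝ := fun x => if x ∈ B then - u x else Function.extend f val 0 x
  have hφB : ∀ x ∈ B, φ x = - u x := fun x hx => if_pos hx
  have hφf : ∀ i, φ (f i) = val i := fun i => by
    simp only [φ, if_neg (hfB i)]
    exact hf.extend_apply val 0 i
  have hcont : ContinuousOn φ (B ∪ range f) := by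
    refine ContinuousOn.union_of_isClosed ?_ ((finite_range f).continuousOn φ) hB
      (finite_range f).isClosed
    have : ContinuousOn (fun x => - u x) B := by fun_prop
    exact this.congr hφB
  have hcl : IsClosed (B ∪ range f) := hB.union (finite_range f).isClosed
  let g : C(↥(B ∪ range f), ℝ) := ⟨(B ∪ range f).restrict φ, continuousOn_iff_continuous_restrict.1 hcont⟩
  obtain ⟨v, hv, hvg⟩ := g.exists_restrict_eq_forall_mem_of_closed (t := Icc (-τ) τ) (by
    rintro ⟨x, hx | ⟨i, rfl⟩⟩
    · change φ x ∈ _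
      rw [hφB x hx, mem_Icc, ← abs_le, abs_neg]
      exact hu x hx
    · change φ (f i) ∈ _
      rw [hφf, mem_Icc, ← abs_le]
      exact hval i) ⟨0, by simp [hτ]⟩ hcl
  have hvφ : ∀ x ∈ B ∪ range f, v x = φ x := by
    intro x hx
    have := congrArg (fun h => h ⟨x, hx⟩) hvg
    exact this
  refine ⟨v, fun x => abs_le.2 (hv x), fun x hx => ?_, fun i => ?_⟩
  · rw [hvφ x (Or.inl hx), hφB x hx]
  · rw [hvφ _ (Or.inr ⟨i, rfl⟩), hφf]

theorem exists_extension_step {M : Type*} [TopologicalSpace M] [CompactSpace M] [T2Space M]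
    {B : Set M} (hB : IsClosed B) (hU : ∀ x, x ∉ B → ¬ IsOpen ({x} : Set M))
    {D : AddSubgroup C(M, ℝ)} (hfg : D.FG)
    (hsep : ∀ d ∈ D, d ≠ 0 → ∃ x, 2 ≤ |d x|) (hvan : ∀ d ∈ D, ∀ x ∈ B, d x = 0)
    {u : C(M, ℝ)} {s t : ℝ} (hst : s < t) (ht : 1 < t) (hus : ∀ x ∈ B, |u x| ≤ s)
    (hut : ∀ d ∈ D, ∃ x, t ≤ |u x - d x|) :
    ∃ p : C(M, ℝ), (∀ x ∈ B, p x = 0) ∧ (∀ x, |u x - p x| < t) ∧
      ∀ d ∈ D, ∀ m : ℕ, 1 ≤ m → ∃ x, 2 ≤ |d x + m * p x| := by
  classical
  -- the amplitude
  obtain ⟨τ, hτ1, hτs, hτt⟩ : ∃ τ : ℝ, 1 < τ ∧ s < τ ∧ τ < t := by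
    obtain ⟨τ, h1, h2⟩ := exists_between (max_lt ht hst)
    exact ⟨τ, lt_of_le_of_lt (le_max_left _ _) h1, lt_of_le_of_lt (le_max_right _ _) h1, h2⟩
  -- a base point off B
  obtain ⟨x₀, hx₀⟩ : ∃ x, x ∉ B := by
    obtain ⟨x, hx⟩ := hut 0 D.zero_mem
    refine ⟨x, fun hxB => ?_⟩
    have := hus x hxB
    simp only [ContinuousMap.zero_apply, sub_zero] at hx
    linarith
  have : Nonempty M := ⟨x₀⟩
  have hsep' : ∀ d ∈ D, d ≠ 0 → 2 ≤ ‖d‖ := by
    intro d hd hd0
    obtain ⟨x, hx⟩ := hsep d hd hd0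
    exact hx.trans (by simpa using d.norm_coe_le_norm x)
  -- the finite dimensional space
  obtain ⟨S, hS⟩ := hfg
  let E : Submodule ℝ C(M, ℝ) := Submodule.span ℝ ((insert u S : Finset C(M, ℝ)) : Set C(M, ℝ))
  have hEfin : FiniteDimensional ℝ E := FiniteDimensional.span_finset ℝ _
  have huE : u ∈ E := Submodule.subset_span (by simp)
  have hDE : ∀ d ∈ D, d ∈ E := by
    intro d hd
    rw [← hS] at hd
    have : AddSubgroup.closure (S : Set C(M, ℝ)) ≤ E.toAddSubgroup :=
      (AddSubgroup.closure_le _).2 (fun y hy => Submodule.subset_span (by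
        simp only [Finset.coe_insert]; exact Set.mem_insert_of_mem _ hy))
    exact this hd
  obtain ⟨N, hNo, hx₀N, hN⟩ := exists_nhds_small_osc E (t + 1) x₀
  -- the finite set of relevant pairs
  let R : ℝ := 3 * t + 2
  let W : Set (C(M, ℝ) × ℕ) := {z | z.1 ∈ D ∧ ‖z.1‖ ≤ R + 3 * ‖u‖ ∧ 1 ≤ z.2 ∧ z.2 ≤ 3}
  have hWfin : W.Finite := by
    have h1 := finite_ball D ⟨S, hS⟩ hsep' (R + 3 * ‖u‖)
    refine (h1.prod (Set.finite_Icc 1 3)).subset ?_
    rintro ⟨d, m⟩ ⟨h1, h2, h3, h4⟩
    exact ⟨⟨h1, h2⟩, h3, h4⟩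
  have : Finite W := hWfin
  -- the infinite sets
  let O : Option W → Set M := fun i =>
    match i with
    | none => (N ∩ Bᶜ) \ {x₀}
    | some z => ({x | x ∉ B ∧ (z.1.2 = 1 → 1 < |z.1.1 x + u x|)}) \ {x₀}
  have hO : ∀ i, (O i).Infinite := by
    rintro (_ | ⟨⟨d, m⟩, hd, hdR, hm1, hm3⟩)
    · refine Set.Infinite.diff ?_ (finite_singleton x₀)
      exact infinite_of_isOpen hU (hNo.inter hB.isOpen_compl) (fun x hx => hx.2) ⟨x₀, hx₀N, hx₀⟩
    · refine Set.Infinite.diff ?_ (finite_singleton x₀)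
      by_cases hm : m = 1
      · subst hm
        obtain ⟨x, hx⟩ := hut (-d) (D.neg_mem hd)
        have hx' : t ≤ |d x + u x| := by
          have : u x - (-d) x = d x + u x := by simp; ring
          rwa [this] at hx
        have hxB : x ∉ B := fun hxB => by
          have h1 := hus x hxB
          have h2 := hvan d hd x hxB
          rw [h2, zero_add] at hx'
          linarith
        have : {x | x ∉ B ∧ ((1 : ℕ) = 1 → 1 < |d x + u x|)} = Bᶜ ∩ {x | 1 < |d x + u x|} := by
          ext y; simp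
        change ({x | x ∉ B ∧ ((1 : ℕ) = 1 → 1 < |d x + u x|)}).Infinite
        rw [this]
        refine infinite_of_isOpen hU (hB.isOpen_compl.inter ?_) (fun x hx => hx.1) ⟨x, hxB, ?_⟩
        · exact isOpen_lt continuous_const (by fun_prop)
        · exact lt_of_lt_of_le ht hx'
      · have : {x | x ∉ B ∧ (m = 1 → 1 < |d x + u x|)} = Bᶜ := by
          ext y; simp [hm]
        change ({x | x ∉ B ∧ (m = 1 → 1 < |d x + u x|)}).Infinite
        rw [this]
        exact infinite_of_isOpen hU hB.isOpen_compl (fun x hx => hx) ⟨x₀, hx₀⟩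
  obtain ⟨f, hfinj, hfO⟩ := exists_injective_choice O hO
  -- add the point x₀
  let f' : Option (Option W) → M := fun i => i.elim x₀ f
  have hfx₀ : ∀ i, f i ≠ x₀ := by
    rintro (_ | z)
    · exact (hfO none).2
    · exact (hfO (some z)).2
  have hfB : ∀ i, f i ∉ B := by
    rintro (_ | z)
    · exact (hfO none).1.2
    · exact (hfO (some z)).1.1
  have hf'inj : Function.Injective f' := by
    rintro (_ | i) (_ | j) hij
    · rfl
    · exact absurd hij.symm (hfx₀ j)
    · exact absurd hij (hfx₀ i)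
    · exact congrArg some (hfinj hij)
  have hf'B : ∀ i, f' i ∉ B := by
    rintro (_ | i)
    · exact hx₀
    · exact hfB i
  let val : Option (Option W) → ℝ := fun i =>
    match i with
    | none => τ
    | some none => -τ
    | some (some z) => if 0 ≤ z.1.1 (f (some z)) + z.1.2 * u (f (some z)) then τ else -τ
  have hτ0 : 0 ≤ τ := by linarith
  have hval : ∀ i, |val i| ≤ τ := by
    rintro (_ | _ | z)
    · simp [val, abs_of_nonneg hτ0]
    · simp [val, abs_of_nonneg hτ0]
    · simp only [val]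
      split_ifs
      · simp [abs_of_nonneg hτ0]
      · simp [abs_of_nonneg hτ0]
  obtain ⟨v, hvτ, hvB, hvf⟩ := exists_perturbation hB f' hf'inj hf'B u hτ0
    (fun x hx => (hus x hx).trans hτs.le) val hval
  refine ⟨u + v, ?_, ?_, ?_⟩
  · intro x hx
    simp [hvB x hx]
  · intro x
    have : u x - (u + v) x = - v x := by simp
    rw [this, abs_neg]
    exact lt_of_le_of_lt (hvτ x) hτt
  · intro d hd m hm
    set w : C(M, ℝ) := d + (m : ℝ) • u with hw
    have hwx : ∀ x, w x = d x + m * u x := by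
      intro x; simp [hw]
    have hexp : ∀ x, d x + m * (u + v) x = w x + m * v x := by
      intro x; rw [hwx]; simp; ring
    have hm0 : (1 : ℝ) ≤ m := by exact_mod_cast hm
    by_cases hbig : m * τ + 2 < ‖w‖
    · obtain ⟨x, hx⟩ : ∃ x, ‖w x‖ = ‖w‖ := by
        obtain ⟨x, -, hx⟩ := isCompact_univ.exists_isMaxOn univ_nonempty
          (f := fun x => ‖w x‖) (by fun_prop)
        refine ⟨x, le_antisymm (w.norm_coe_le_norm x) ?_⟩
        rw [ContinuousMap.norm_le _ (norm_nonneg _)]
        intro y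
        exact hx (mem_univ y)
      refine ⟨x, ?_⟩
      rw [hexp]
      rw [Real.norm_eq_abs] at hx
      have h1 : |m * v x| ≤ m * τ := by
        rw [abs_mul, abs_of_nonneg (by linarith : (0 : ℝ) ≤ m)]
        exact mul_le_mul_of_nonneg_left (hvτ x) (by linarith)
      have h2 : |w x| ≤ |w x + m * v x| + |m * v x| := by
        have := abs_sub (w x + m * v x) (m * v x)
        simpa using this
      linarith
    · push Not at hbig
      by_cases hm3 : m ≤ 3
      · have hm3' : (m : ℝ) ≤ 3 := by exact_mod_cast hm3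
        have hzW : (d, m) ∈ W := by
          refine ⟨hd, ?_, hm, hm3⟩
          change ‖d‖ ≤ R + 3 * ‖u‖
          have h1 : d = w - (m : ℝ) • u := by rw [hw]; simp
          have h2 : ‖d‖ ≤ ‖w‖ + m * ‖u‖ := by
            calc ‖d‖ = ‖w - (m : ℝ) • u‖ := by rw [← h1]
              _ ≤ ‖w‖ + ‖(m : ℝ) • u‖ := norm_sub_le _ _
              _ = ‖w‖ + m * ‖u‖ := by
                rw [norm_smul, Real.norm_eq_abs, abs_of_nonneg (by linarith : (0:ℝ) ≤ m)]
          have h3 : m * τ ≤ 3 * t := by
            calc m * τ ≤ 3 * τ := mul_le_mul_of_nonneg_right hm3' hτ0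
              _ ≤ 3 * t := by linarith
          have h4 : (m : ℝ) * ‖u‖ ≤ 3 * ‖u‖ := mul_le_mul_of_nonneg_right hm3' (norm_nonneg _)
          simp only [R]
          linarith
        set z : W := ⟨(d, m), hzW⟩ with hz
        refine ⟨f (some z), ?_⟩
        have hv' : v (f (some z)) = if 0 ≤ w (f (some z)) then τ else -τ := by
          have := hvf (some (some z))
          change v (f (some z)) = _ at this
          rw [this]
          change (if 0 ≤ d (f (some z)) + m * u (f (some z)) then τ else -τ) = _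
          rw [hwx]
        have habs : |w (f (some z)) + m * v (f (some z))| = |w (f (some z))| + m * τ := by
          rw [hv']
          split_ifs with h
          · rw [abs_of_nonneg h, abs_of_nonneg (by positivity)]
          · push Not at h
            rw [abs_of_neg h, abs_of_neg]
            · ring
            · have : (0:ℝ) < m * τ := by positivity
              linarith
        rw [hexp, habs]
        by_cases hm1 : m = 1
        · have h1 : 1 < |d (f (some z)) + u (f (some z))| := (hfO (some z)).1.2 hm1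
          have h2 : w (f (some z)) = d (f (some z)) + u (f (some z)) := by
            rw [hwx, hm1]; simp
          rw [h2, hm1]
          push_cast
          linarith
        · have hm2 : (2 : ℝ) ≤ m := by
            have : 2 ≤ m := by omega
            exact_mod_cast this
          have := abs_nonneg (w (f (some z)))
          nlinarith
      · push Not at hm3
        have hm4 : (4 : ℝ) ≤ m := by
          have : 4 ≤ m := by omega
          exact_mod_cast this
        have hmpos : (0:ℝ) < m := by linarith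
        have hwE : (1 / (m : ℝ)) • w ∈ E :=
          E.smul_mem _ (E.add_mem (hDE d hd) (E.smul_mem _ huE))
        have hnorm : ‖(1 / (m : ℝ)) • w‖ ≤ t + 1 := by
          rw [norm_smul, Real.norm_eq_abs, abs_of_pos (by positivity), div_mul_eq_mul_div, one_mul,
            div_le_iff₀ hmpos]
          nlinarith
        have hnone := (hfO none).1.1
        have hosc := hN _ hwE hnorm (f none) hnone
        have hosc' : |w x₀ - w (f none)| ≤ m := by
          have h1 : ((1 / (m : ℝ)) • w) x₀ - ((1 / (m : ℝ)) • w) (f none)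
              = (w x₀ - w (f none)) / m := by
            simp [div_eq_inv_mul]; ring
          rw [h1, abs_div, abs_of_pos hmpos, div_le_iff₀ hmpos, one_mul] at hosc
          exact hosc
        have hv0 : v x₀ = τ := hvf none
        have hv1 : v (f none) = -τ := hvf (some none)
        by_contra hcon
        push Not at hcon
        have h1 := hcon x₀
        have h2 := hcon (f none)
        rw [hexp, hv0, abs_lt] at h1
        rw [hexp, hv1, abs_lt] at h2
        rw [abs_le] at hosc'
        nlinarith [h1.1, h1.2, h2.1, h2.2, hosc'.1, hosc'.2]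

end Pool.Agent.H52
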