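import Mathlib

/-! Splitting lemma: real subspaces are divisible, hence extensions of subgroups over them split. -/

namespace Pool.Agent.H52

/-- Let `J` be a real linear subspace of `V`, `P ≤ J ≤ G` additive subgroups. There is a subgroup
`P'` between `P` and `G` that meets `J` only in `P` and that together with `J` generates `G`. -/
theorem exists_lift {V : Type*} [AddCommGroup V] [Module ℝ V] (J : Submodule ℝ V)
    (P G : AddSubgroup V) (hPJ : ∀ x ∈ P, x ∈ J) (hJG : ∀ x ∈ J, x ∈ G) :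
    ∃ P' : AddSubgroup V, P ≤ P' ∧ P' ≤ G ∧ (∀ x ∈ P', x ∈ J → x ∈ P) ∧
      (∀ g ∈ G, ∃ p ∈ P', g - p ∈ J) := by
  let S : Set (AddSubgroup V) := {P' | P ≤ P' ∧ P' ≤ G ∧ ∀ x ∈ P', x ∈ J → x ∈ P}
  have hPS : P ∈ S := ⟨le_rfl, fun x hx => hJG x (hPJ x hx), fun x hx _ => hx⟩
  obtain ⟨P', -, hmax⟩ := zorn_le_nonempty₀ S (by
    intro c hcS hc y hy
    refine ⟨sSup c, ⟨?_, ?_, ?_⟩, fun z hz => le_sSup hz⟩
    · exact (hcS hy).1.trans (le_sSup hy)
    · exact sSup_le fun z hz => (hcS hz).2.1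
    · intro x hx hxJ
      rw [AddSubgroup.mem_sSup_of_directedOn ⟨y, hy⟩ hc.directedOn] at hx
      obtain ⟨z, hz, hxz⟩ := hx
      exact (hcS hz).2.2 x hxz hxJ) P hPS
  have hP'S := hmax.prop
  refine ⟨P', hP'S.1, hP'S.2.1, hP'S.2.2, ?_⟩
  intro g hg
  by_contra hcon
  push Not at hcon
  -- the subgroup of integers n with n • g ∈ P' + J
  let N : AddSubgroup ℤ :=
    { carrier := {n | ∃ p ∈ P', n • g - p ∈ J}
      zero_mem' := ⟨0, P'.zero_mem, by simp⟩
      add_mem' := by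
        rintro a b ⟨p, hp, hpJ⟩ ⟨q, hq, hqJ⟩
        refine ⟨p + q, P'.add_mem hp hq, ?_⟩
        have : (a + b) • g - (p + q) = (a • g - p) + (b • g - q) := by
          rw [add_smul]; abel
        rw [this]; exact J.add_mem hpJ hqJ
      neg_mem' := by
        rintro a ⟨p, hp, hpJ⟩
        refine ⟨-p, P'.neg_mem hp, ?_⟩
        have : (-a) • g - (-p) = -(a • g - p) := by
          rw [neg_smul]; abel
        rw [this]; exact J.neg_mem hpJ }
  obtain ⟨n₀, hn₀⟩ := Int.subgroup_cyclic N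
  have hNmem : ∀ n : ℤ, n ∈ N ↔ ∃ k : ℤ, n = k * n₀ := by
    intro n
    rw [hn₀, AddSubgroup.mem_closure_singleton]
    constructor
    · rintro ⟨k, hk⟩; exact ⟨k, by rw [← hk, smul_eq_mul]⟩
    · rintro ⟨k, hk⟩; exact ⟨k, by rw [hk, smul_eq_mul]⟩
  -- choose the correction j
  obtain ⟨j, hjJ, hj⟩ : ∃ j ∈ J, n₀ • (g - j) ∈ P' := by
    obtain ⟨p₀, hp₀, hp₀J⟩ : n₀ ∈ N := (hNmem n₀).2 ⟨1, by ring⟩
    by_cases h0 : n₀ = 0
    · exact ⟨0, J.zero_mem, by simp [h0]⟩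
    · refine ⟨(1 / (n₀ : ℝ)) • (n₀ • g - p₀), J.smul_mem _ hp₀J, ?_⟩
      have hne : (n₀ : ℝ) ≠ 0 := by exact_mod_cast h0
      have : n₀ • (g - (1 / (n₀ : ℝ)) • (n₀ • g - p₀)) = p₀ := by
        rw [← Int.cast_smul_eq_zsmul ℝ, smul_sub, smul_smul, mul_one_div_cancel hne, one_smul,
          Int.cast_smul_eq_zsmul ℝ]
        abel
      rw [this]; exact hp₀
  set g' := g - j with hg'
  have hgG : g' ∈ G := G.sub_mem hg (hJG j hjJ)
  have key : P' ⊔ AddSubgroup.zmultiples g' ∈ S := by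
    refine ⟨hP'S.1.trans le_sup_left, sup_le hP'S.2.1 (by simpa using hgG), ?_⟩
    intro x hx hxJ
    rw [AddSubgroup.mem_sup] at hx
    obtain ⟨p, hp, y, hy, rfl⟩ := hx
    rw [AddSubgroup.mem_zmultiples_iff] at hy
    obtain ⟨k, rfl⟩ := hy
    have hkN : k ∈ N := by
      refine ⟨-p, P'.neg_mem hp, ?_⟩
      have : k • g - -p = (p + k • g') + k • j := by
        rw [hg', smul_sub]; abel
      rw [this]
      exact J.add_mem hxJ (by
        rw [← Int.cast_smul_eq_zsmul ℝ]; exact J.smul_mem _ hjJ)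
    obtain ⟨l, rfl⟩ := (hNmem k).1 hkN
    have hmem : p + (l * n₀) • g' ∈ P' := by
      refine P'.add_mem hp ?_
      rw [mul_smul]; exact P'.zsmul_mem hj l
    exact hP'S.2.2 _ hmem hxJ
  have hle := hmax.le_of_ge key le_sup_left
  have hg'P : g' ∈ P' := hle (AddSubgroup.mem_sup_right (AddSubgroup.mem_zmultiples g'))
  exact hcon g' hg'P (by rw [hg']; simpa using hjJ)

end Pool.Agent.H52
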