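import Mathlib
import Pool.Agent.H52.Split

/-! The transfinite descent through closed subsets. -/

namespace Pool.Agent.H52

open Topology

variable {K : Type*} [TopologicalSpace K] [CompactSpace K]

/-- `P` is a subgroup of functions vanishing on `F`, all of whose nonzero members have sup norm at
least two, and which is `< r` dense among the functions that are `< r` on `F`. -/
def RelGood (r : ℝ) (F : Set K) (P : AddSubgroup C(K, ℝ)) : Prop :=
  (∀ p ∈ P, ∀ x ∈ F, p x = 0) ∧ (∀ p ∈ P, p ≠ 0 → ∃ x, 2 ≤ |p x|) ∧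
    ∀ g : C(K, ℝ), (∀ x ∈ F, |g x| < r) → ∃ p ∈ P, ∀ x, |g x - p x| < r

/-- A piece of the closed set `F`: a smaller closed subset `F'` and a group `G` (containing all the
functions vanishing on `F`) which is good on `F` relative to `F'`. -/
def PieceGood (r : ℝ) (F F' : Set K) (G : AddSubgroup C(K, ℝ)) : Prop :=
  (∀ h ∈ G, ∀ x ∈ F', h x = 0) ∧
  (∀ h ∈ G, (∃ x ∈ F, h x ≠ 0) → ∃ x ∈ F, 2 ≤ |h x|) ∧
  (∀ g : C(K, ℝ), (∀ x ∈ F', |g x| < r) → ∃ h ∈ G, ∀ x ∈ F, |g x - h x| < r) ∧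
  (∀ h : C(K, ℝ), (∀ x ∈ F, h x = 0) → h ∈ G)

/-- functions vanishing on `F`, as a real subspace -/
def vanishing (F : Set K) : Submodule ℝ C(K, ℝ) where
  carrier := {h | ∀ x ∈ F, h x = 0}
  zero_mem' := fun x _ => rfl
  add_mem' := by
    intro a b ha hb x hx
    simp [ha x hx, hb x hx]
  smul_mem' := by
    intro c a ha x hx
    simp [ha x hx]

omit [CompactSpace K] in
theorem mem_vanishing {F : Set K} {h : C(K, ℝ)} : h ∈ vanishing F ↔ ∀ x ∈ F, h x = 0 := Iff.rfl

theorem relGood_extend {r : ℝ} {F F' : Set K} (hF' : F' ⊆ F) {P G : AddSubgroup C(K, ℝ)}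
    (hP : RelGood r F P) (hG : PieceGood r F F' G) :
    ∃ P' : AddSubgroup C(K, ℝ), P ≤ P' ∧ RelGood r F' P' := by
  obtain ⟨P', hPP', hP'G, hPJ, hsurj⟩ := exists_lift (vanishing F) P G
    (fun p hp => hP.1 p hp) (fun h hh => hG.2.2.2 h hh)
  refine ⟨P', hPP', fun p hp x hx => hG.1 p (hP'G hp) x hx, ?_, ?_⟩
  · intro p hp hp0
    by_cases hpJ : p ∈ vanishing F
    · exact hP.2.1 p (hPJ p hp hpJ) hp0
    · rw [mem_vanishing] at hpJ
      push Not at hpJ
      obtain ⟨x, hx, hx2⟩ := hG.2.1 p (hP'G hp) hpJ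
      exact ⟨x, hx2⟩
  · intro g hg
    obtain ⟨h, hhG, hh⟩ := hG.2.2.1 g hg
    obtain ⟨p', hp', hp'J⟩ := hsurj h hhG
    have hlt : ∀ x ∈ F, |(g - p') x| < r := by
      intro x hx
      have h1 : (h - p') x = 0 := hp'J x hx
      have h2 : h x = p' x := by
        have : h x - p' x = 0 := h1
        linarith
      have := hh x hx
      rw [ContinuousMap.sub_apply, ← h2]; exact this
    obtain ⟨p, hp, hpr⟩ := hP.2.2 (g - p') hlt
    refine ⟨p' + p, P'.add_mem hp' (hPP' hp), fun x => ?_⟩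
    have := hpr x
    simp only [ContinuousMap.sub_apply] at this
    simp only [ContinuousMap.add_apply]
    rw [show g x - (p' x + p x) = g x - p' x - p x by ring]
    exact this

theorem exists_relGood_empty {r : ℝ}
    (hpiece : ∀ F : Set K, IsClosed F → F.Nonempty →
      ∃ F' : Set K, IsClosed F' ∧ F' ⊂ F ∧ ∃ G : AddSubgroup C(K, ℝ), PieceGood r F F' G) :
    ∃ P : AddSubgroup C(K, ℝ), RelGood r ∅ P := by
  let S : Set ((Set K)ᵒᵈ × AddSubgroup C(K, ℝ)) :=
    {z | IsClosed (OrderDual.ofDual z.1) ∧ RelGood r (OrderDual.ofDual z.1) z.2}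
  have h0 : ((OrderDual.toDual (Set.univ : Set K)), (⊥ : AddSubgroup C(K, ℝ))) ∈ S := by
    refine ⟨isClosed_univ, ?_, ?_, ?_⟩
    · intro p hp x _
      rw [AddSubgroup.mem_bot] at hp
      simp [hp]
    · intro p hp hp0
      exact absurd (AddSubgroup.mem_bot.1 hp) hp0
    · intro g hg
      exact ⟨0, AddSubgroup.zero_mem _, fun x => by simpa using hg x (Set.mem_univ x)⟩
  obtain ⟨m, -, hmax⟩ := zorn_le_nonempty₀ S (by
    intro c hcS hc y hy
    have : Nonempty c := ⟨⟨y, hy⟩⟩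
    let Fi : Set K := ⋂ z : c, OrderDual.ofDual z.1.1
    let Pi : AddSubgroup C(K, ℝ) := ⨆ z : c, z.1.2
    have hdir : Directed (· ≤ ·) fun z : c => z.1.2 := by
      intro a b
      rcases hc.total a.2 b.2 with h | h
      · exact ⟨b, h.2, le_rfl⟩
      · exact ⟨a, le_rfl, h.2⟩
    refine ⟨(OrderDual.toDual Fi, Pi), ⟨?_, ?_, ?_, ?_⟩, ?_⟩
    · exact isClosed_iInter fun z => (hcS z.2).1
    · intro p hp x hx
      rw [AddSubgroup.mem_iSup_of_directed hdir] at hp
      obtain ⟨z, hz⟩ := hp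
      exact (hcS z.2).2.1 p hz x (Set.mem_iInter.1 hx z)
    · intro p hp hp0
      rw [AddSubgroup.mem_iSup_of_directed hdir] at hp
      obtain ⟨z, hz⟩ := hp
      exact (hcS z.2).2.2.1 p hz hp0
    · intro g hg
      -- compactness
      have hcomp : IsCompact {x : K | r ≤ |g x|} :=
        (isClosed_le continuous_const (by fun_prop)).isCompact
      obtain ⟨z, hz⟩ : ∃ z : c, {x : K | r ≤ |g x|} ∩ OrderDual.ofDual z.1.1 = ∅ := by
        have hdirF : Directed (· ⊇ ·) fun z : c => (OrderDual.ofDual z.1.1 : Set K) := by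
          intro a b
          rcases hc.total a.2 b.2 with h | h
          · exact ⟨b, h.1, Set.Subset.rfl⟩
          · exact ⟨a, Set.Subset.rfl, h.1⟩
        refine hcomp.elim_directed_family_closed _ (fun z => (hcS z.2).1) ?_ hdirF
        ext x
        simp only [Set.mem_inter_iff, Set.mem_setOf_eq, Set.mem_empty_iff_false, iff_false, not_and]
        intro hx hx'
        exact absurd (hg x hx') (not_lt.2 hx)
      obtain ⟨p, hp, hpr⟩ := (hcS z.2).2.2.2 g (by
        intro x hx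
        by_contra hcon
        have : x ∈ {x : K | r ≤ |g x|} ∩ OrderDual.ofDual z.1.1 := ⟨not_lt.1 hcon, hx⟩
        rw [hz] at this
        exact this)
      exact ⟨p, (AddSubgroup.mem_iSup_of_directed hdir).2 ⟨z, hp⟩, hpr⟩
    · intro z hz
      refine ⟨?_, ?_⟩
      · change Fi ⊆ OrderDual.ofDual z.1
        exact Set.iInter_subset_of_subset ⟨z, hz⟩ Set.Subset.rfl
      · exact le_iSup (fun z : c => z.1.2) ⟨z, hz⟩) _ h0
  have hmS := hmax.prop
  by_cases hne : (OrderDual.ofDual m.1).Nonempty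
  · exfalso
    obtain ⟨F', hF'c, hF'ss, G, hG⟩ := hpiece _ hmS.1 hne
    obtain ⟨P', hPP', hP'⟩ := relGood_extend hF'ss.subset hmS.2 hG
    have hin : ((OrderDual.toDual F'), P') ∈ S := ⟨hF'c, hP'⟩
    have hle : m ≤ ((OrderDual.toDual F'), P') := ⟨hF'ss.subset, hPP'⟩
    have hge := hmax.le_of_ge hin hle
    exact hF'ss.2 hge.1
  · rw [Set.not_nonempty_iff_eq_empty] at hne
    have := hmS.2
    rw [hne] at this
    exact ⟨_, this⟩

end Pool.Agent.H52
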