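import Mathlib
import Pool.Agent.H52.Ext
import Pool.Agent.H52.Main

/-! The countable construction on compact metrizable spaces. -/

namespace Pool.Agent.H52

open Topology Set TopologicalSpace

variable {M : Type*} [TopologicalSpace M] [CompactSpace M] [T2Space M]

/-- finitely generated good groups -/
def FGGood (B : Set M) (D : AddSubgroup C(M, ℝ)) : Prop :=
  D.FG ∧ (∀ d ∈ D, d ≠ 0 → ∃ x, 2 ≤ |d x|) ∧ (∀ d ∈ D, ∀ x ∈ B, d x = 0)

omit [CompactSpace M] [T2Space M] in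
theorem fgGood_bot (B : Set M) : FGGood B (⊥ : AddSubgroup C(M, ℝ)) := by
  refine ⟨AddSubgroup.FG.bot, ?_, ?_⟩
  · intro d hd h0; exact absurd (AddSubgroup.mem_bot.1 hd) h0
  · intro d hd x _
    rw [AddSubgroup.mem_bot] at hd
    simp [hd]

theorem fgGood_step {B : Set M} (hB : IsClosed B) (hU : ∀ x, x ∉ B → ¬ IsOpen ({x} : Set M))
    {D : AddSubgroup C(M, ℝ)} (hD : FGGood B D)
    {u : C(M, ℝ)} {s t : ℝ} (hst : s < t) (ht : 1 < t) (hus : ∀ x ∈ B, |u x| ≤ s) :
    ∃ D' : AddSubgroup C(M, ℝ), D ≤ D' ∧ FGGood B D' ∧ ∃ d ∈ D', ∀ x, |u x - d x| < t := by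
  classical
  by_cases hex : ∃ d ∈ D, ∀ x, |u x - d x| < t
  · exact ⟨D, le_rfl, hD, hex⟩
  · push Not at hex
    obtain ⟨p, hpB, hpu, hp⟩ := exists_extension_step hB hU hD.1 hD.2.1 hD.2.2 hst ht hus hex
    refine ⟨D ⊔ AddSubgroup.zmultiples p, le_sup_left, ⟨?_, ?_, ?_⟩, p,
      AddSubgroup.mem_sup_right (AddSubgroup.mem_zmultiples p), hpu⟩
    · refine AddSubgroup.FG.sup hD.1 ?_
      exact ⟨{p}, by simp [AddSubgroup.zmultiples_eq_closure]⟩
    · intro q hq hq0
      rw [AddSubgroup.mem_sup] at hq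
      obtain ⟨d, hd, y, hy, rfl⟩ := hq
      rw [AddSubgroup.mem_zmultiples_iff] at hy
      obtain ⟨k, rfl⟩ := hy
      rcases lt_trichotomy k 0 with hk | hk | hk
      · obtain ⟨x, hx⟩ := hp (-d) (D.neg_mem hd) k.natAbs (by omega)
        refine ⟨x, ?_⟩
        have h1 : ((k.natAbs : ℕ) : ℝ) = -(k : ℝ) := by
          have h3 : ((k.natAbs : ℕ) : ℤ) = -k := by omega
          rw [← Int.cast_natCast, h3, Int.cast_neg]
        rw [h1] at hx
        have h2 : (-d) x + -(k : ℝ) * p x = -((d + k • p) x) := by simp; ring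
        rw [h2, abs_neg] at hx
        exact hx
      · subst hk
        simp only [zero_smul, add_zero] at hq0 ⊢
        exact hD.2.1 d hd hq0
      · obtain ⟨x, hx⟩ := hp d hd k.natAbs (by omega)
        refine ⟨x, ?_⟩
        have h1 : ((k.natAbs : ℕ) : ℝ) = (k : ℝ) := by
          have h3 : ((k.natAbs : ℕ) : ℤ) = k := by omega
          rw [← Int.cast_natCast, h3]
        rw [h1] at hx
        have h2 : d x + (k : ℝ) * p x = (d + k • p) x := by simp
        rw [h2] at hx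
        exact hx
    · intro q hq x hxB
      rw [AddSubgroup.mem_sup] at hq
      obtain ⟨d, hd, y, hy, rfl⟩ := hq
      rw [AddSubgroup.mem_zmultiples_iff] at hy
      obtain ⟨k, rfl⟩ := hy
      simp [hD.2.2 d hd x hxB, hpB x hxB]

omit [CompactSpace M] [T2Space M] in
/-- Countably many tasks. -/
theorem exists_group_of_tasks {B : Set M} (T : ℕ → AddSubgroup C(M, ℝ) → Prop)
    (hmono : ∀ n D D', D ≤ D' → T n D → T n D')
    (hT : ∀ n D, FGGood B D → ∃ D', D ≤ D' ∧ FGGood B D' ∧ T n D') :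
    ∃ Q : AddSubgroup C(M, ℝ), (∀ p ∈ Q, ∀ x ∈ B, p x = 0) ∧
      (∀ p ∈ Q, p ≠ 0 → ∃ x, 2 ≤ |p x|) ∧ ∀ n, T n Q := by
  choose ext hle hgood htask using hT
  let seq : ℕ → {D : AddSubgroup C(M, ℝ) // FGGood B D} := fun n =>
    Nat.rec ⟨⊥, fgGood_bot B⟩ (fun n D => ⟨ext n D.1 D.2, hgood n D.1 D.2⟩) n
  have hsucc : ∀ n, (seq (n + 1)).1 = ext n (seq n).1 (seq n).2 := fun n => rfl
  have hmon : Monotone fun n => (seq n).1 := by
    refine monotone_nat_of_le_succ fun n => ?_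
    rw [hsucc]; exact hle n _ _
  have hdir : Directed (· ≤ ·) fun n => (seq n).1 := hmon.directed_le
  refine ⟨⨆ n, (seq n).1, ?_, ?_, ?_⟩
  · intro p hp x hx
    rw [AddSubgroup.mem_iSup_of_directed hdir] at hp
    obtain ⟨n, hn⟩ := hp
    exact (seq n).2.2.2 p hn x hx
  · intro p hp hp0
    rw [AddSubgroup.mem_iSup_of_directed hdir] at hp
    obtain ⟨n, hn⟩ := hp
    exact (seq n).2.2.1 p hn hp0
  · intro n
    have h1 : T n (seq (n + 1)).1 := by
      rw [hsucc]; exact htask n _ _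
    exact hmono n _ _ (le_iSup (fun n => (seq n).1) (n + 1)) h1

/-- The countable construction. -/
theorem exists_relGood_metrizable [MetrizableSpace M] {B : Set M} (hB : IsClosed B)
    (hU : ∀ x, x ∉ B → ¬ IsOpen ({x} : Set M)) {r : ℝ} (hr : 1 < r) :
    ∃ Q : AddSubgroup C(M, ℝ), RelGood r B Q := by
  classical
  letI : MetricSpace M := TopologicalSpace.metrizableSpaceMetric M
  let dseq : ℕ → C(M, ℝ) := TopologicalSpace.denseSeq C(M, ℝ)
  have hdense : DenseRange dseq := TopologicalSpace.denseRange_denseSeq _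
  let η : ℕ → ℝ := fun j => 1 / ((j : ℝ) + 1)
  have hη : ∀ j, 0 < η j := fun j => by positivity
  let T : ℕ → AddSubgroup C(M, ℝ) → Prop := fun n D =>
    1 < r - η n.unpair.2 → (∀ x ∈ B, |dseq n.unpair.1 x| ≤ r - 2 * η n.unpair.2) →
      ∃ d ∈ D, ∀ x, |dseq n.unpair.1 x - d x| < r - η n.unpair.2
  obtain ⟨Q, hQB, hQ2, hQT⟩ := exists_group_of_tasks (B := B) T
    (by
      intro n D D' hDD' hn h1 h2
      obtain ⟨d, hd, hdx⟩ := hn h1 h2
      exact ⟨d, hDD' hd, hdx⟩)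
    (by
      intro n D hD
      by_cases h1 : 1 < r - η n.unpair.2
      · by_cases h2 : ∀ x ∈ B, |dseq n.unpair.1 x| ≤ r - 2 * η n.unpair.2
        · obtain ⟨D', hD'1, hD'2, hD'3⟩ := fgGood_step hB hU hD
            (s := r - 2 * η n.unpair.2) (t := r - η n.unpair.2)
            (by linarith [hη n.unpair.2]) h1 h2
          exact ⟨D', hD'1, hD'2, fun _ _ => hD'3⟩
        · exact ⟨D, le_rfl, hD, fun _ h => absurd h h2⟩
      · exact ⟨D, le_rfl, hD, fun h => absurd h h1⟩)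
  refine ⟨Q, hQB, hQ2, ?_⟩
  intro g hg
  -- a uniform bound on B
  obtain ⟨s₀, hs₀r, hs₀⟩ : ∃ s₀ < r, ∀ x ∈ B, |g x| ≤ s₀ := by
    rcases B.eq_empty_or_nonempty with rfl | hBne
    · exact ⟨r - 1, by linarith, fun x hx => absurd hx (Set.notMem_empty x)⟩
    · obtain ⟨x, hxB, hx⟩ := hB.isCompact.exists_isMaxOn hBne
        (f := fun x => |g x|) (by fun_prop)
      exact ⟨|g x|, hg x hxB, fun y hy => hx hy⟩
  obtain ⟨j, hj⟩ : ∃ j : ℕ, η j < min ((r - s₀) / 3) (r - 1) := by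
    have : 0 < min ((r - s₀) / 3) (r - 1) := lt_min (by linarith) (by linarith)
    obtain ⟨j, hj⟩ := exists_nat_one_div_lt this
    exact ⟨j, hj⟩
  have hj1 : η j < (r - s₀) / 3 := lt_of_lt_of_le hj (min_le_left _ _)
  have hj2 : η j < r - 1 := lt_of_lt_of_le hj (min_le_right _ _)
  obtain ⟨k, hk⟩ := hdense.exists_dist_lt g (hη j)
  rw [dist_eq_norm] at hk
  have hk' : ∀ x, |g x - dseq k x| < η j := by
    intro x
    have := (g - dseq k).norm_coe_le_norm x
    simp only [ContinuousMap.sub_apply, Real.norm_eq_abs] at this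
    exact lt_of_le_of_lt this hk
  have htask := hQT (Nat.pair k j)
  simp only [T, Nat.unpair_pair] at htask
  obtain ⟨d, hdQ, hd⟩ := htask (by linarith) (by
    intro x hx
    have h1 := hs₀ x hx
    have h2 := hk' x
    rw [abs_le] at h1 ⊢
    rw [abs_lt] at h2
    constructor <;> linarith [h1.1, h1.2, h2.1, h2.2])
  refine ⟨d, hdQ, fun x => ?_⟩
  have h1 := hd x
  have h2 := hk' x
  rw [abs_lt] at h1 h2 ⊢
  constructor <;> linarith [h1.1, h1.2, h2.1, h2.2]

omit [CompactSpace M] [T2Space M] in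
/-- The one point space. -/
theorem exists_relGood_subsingleton [Subsingleton M] {B : Set M} (hB : B = ∅) {r : ℝ}
    (hr : 1 < r) : ∃ Q : AddSubgroup C(M, ℝ), RelGood r B Q := by
  refine ⟨{ carrier := {h | ∃ n : ℤ, ∀ x, h x = 2 * n}
            zero_mem' := ⟨0, fun x => by simp⟩
            add_mem' := ?_
            neg_mem' := ?_ }, ?_, ?_, ?_⟩
  · rintro a b ⟨n, hn⟩ ⟨m, hm⟩
    exact ⟨n + m, fun x => by simp [hn x, hm x]; ring⟩
  · rintro a ⟨n, hn⟩
    exact ⟨-n, fun x => by simp [hn x]⟩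
  · intro p _ x hx
    rw [hB] at hx
    exact absurd hx (Set.notMem_empty x)
  · rintro p ⟨n, hn⟩ hp0
    obtain ⟨x, hx⟩ : ∃ x, p x ≠ 0 := by
      by_contra hcon
      push Not at hcon
      exact hp0 (ContinuousMap.ext hcon)
    refine ⟨x, ?_⟩
    have hn0 : n ≠ 0 := by
      rintro rfl
      exact hx (by rw [hn x]; simp)
    rw [hn x, abs_mul, abs_two]
    have : (1 : ℝ) ≤ |(n : ℝ)| := by exact_mod_cast Int.one_le_abs hn0
    linarith
  · intro g _
    rcases isEmpty_or_nonempty M with hM | ⟨⟨x₀⟩⟩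
    · exact ⟨0, AddSubgroup.zero_mem _, fun x => isEmptyElim x⟩
    · have hmem : (ContinuousMap.const M (2 * (round (g x₀ / 2) : ℝ)) : C(M, ℝ)) ∈
          ({h | ∃ n : ℤ, ∀ x, h x = 2 * n} : Set C(M, ℝ)) :=
        ⟨round (g x₀ / 2), fun x => rfl⟩
      refine ⟨ContinuousMap.const M (2 * (round (g x₀ / 2) : ℝ)), hmem, fun x => ?_⟩
      rw [Subsingleton.elim x x₀]
      have h1 := abs_sub_round (g x₀ / 2)
      have h2 : g x₀ - (ContinuousMap.const M (2 * (round (g x₀ / 2) : ℝ)) : C(M, ℝ)) x₀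
          = 2 * (g x₀ / 2 - round (g x₀ / 2)) := by simp; ring
      rw [h2, abs_mul, abs_two]
      linarith

end Pool.Agent.H52
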