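import Mathlib

/-!
# Roots of dynatomic polynomials (Morton-Silverman)
-/

open Polynomial

namespace Pool.Agent.H9.Dyn

namespace DynRoot

/-- iterates of a polynomial -/
noncomputable def it {K : Type*} [Field K] (f : K[X]) (d : ℕ) : K[X] := (f.comp)^[d] X

section

variable {K : Type*} [Field K]

lemma it_zero (f : K[X]) : it f 0 = X := rfl

lemma it_succ (f : K[X]) (d : ℕ) : it f (d + 1) = f.comp (it f d) := by
  rw [it, Function.iterate_succ_apply']
  rfl

lemma it_add (f : K[X]) (a b : ℕ) : it f (a + b) = (it f a).comp (it f b) := by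
  induction a with
  | zero => rw [zero_add, it_zero, X_comp]
  | succ a ih => rw [show a + 1 + b = (a + b) + 1 by ring, it_succ, ih, it_succ, comp_assoc]

lemma it_mul (f : K[X]) (m q : ℕ) : it f (m * q) = it (it f m) q := by
  induction q with
  | zero => rw [mul_zero, it_zero, it_zero]
  | succ q ih => rw [mul_add, mul_one, add_comm, it_add, ih, it_succ]

lemma eval_it (f : K[X]) (d : ℕ) (y : K) : (it f d).eval y = (fun y => f.eval y)^[d] y := by
  induction d with
  | zero => simp [it_zero]
  | succ d ih => rw [it_succ, eval_comp, ih, Function.iterate_succ_apply']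

lemma natDegree_it (f : K[X]) (d : ℕ) : (it f d).natDegree = f.natDegree ^ d := by
  induction d with
  | zero => simp [it_zero]
  | succ d ih => rw [it_succ, natDegree_comp, ih, pow_succ, mul_comm]

lemma it_sub_ne_zero (f : K[X]) (hf : 2 ≤ f.natDegree) {d : ℕ} (hd : 0 < d) :
    it f d - X ≠ 0 := by
  intro h
  rw [sub_eq_zero] at h
  have h1 := natDegree_it f d
  rw [h, natDegree_X] at h1
  have h2 : 2 ≤ f.natDegree ^ d := hf.trans (Nat.le_self_pow hd.ne' _)
  omega

lemma deriv_it (f : K[X]) (d : ℕ) (x : K) : (derivative (it f d)).eval x =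
    ∏ i ∈ Finset.range d, f.derivative.eval ((fun y => f.eval y)^[i] x) := by
  induction d with
  | zero => simp [it_zero]
  | succ d ih =>
    rw [it_succ, derivative_comp, eval_mul, ih, Finset.prod_range_succ, eval_comp, eval_it]

lemma deriv_it_fixed (g : K[X]) (x : K) (hx : g.eval x = x) (q : ℕ) :
    (derivative (it g q)).eval x = (g.derivative.eval x) ^ q := by
  rw [deriv_it, Finset.prod_congr rfl (g := fun _ => g.derivative.eval x), Finset.prod_const,
    Finset.card_range]
  intro i _
  have : (fun y => g.eval y)^[i] x = x := Function.iterate_fixed hx i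
  rw [this]

/-- multiplicity at a point with unit factor -/
lemma rootMult_eq {w : K[X]} {x : K} {n : ℕ} (hw : w.eval x ≠ 0) :
    ((X - C x) ^ n * w).rootMultiplicity x = n := by
  have hw0 : w ≠ 0 := by
    rintro rfl
    simp at hw
  rw [mul_comm, rootMultiplicity_mul_X_sub_C_pow hw0, rootMultiplicity_eq_zero (by simpa using hw),
    zero_add]

/-- multiplicities of iterates of a map tangent to the identity -/
lemma mult_iter [CharZero K] (h : K[X]) (x : K) (N : ℕ) (hN : 2 ≤ N) (u : K[X])
    (hu : h - X = (X - C x) ^ N * u) (_hux : u.eval x ≠ 0) (j : ℕ) :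
    ∃ w : K[X], it h j - X = (X - C x) ^ N * w ∧ w.eval x = j * u.eval x := by
  have hx : h.eval x = x := by
    have := congrArg (eval x) hu
    rw [eval_sub, eval_X, eval_mul, eval_pow, eval_sub, eval_X, eval_C, sub_self,
      zero_pow (by omega), zero_mul, sub_eq_zero] at this
    exact this
  induction j with
  | zero => exact ⟨0, by simp [it_zero], by simp⟩
  | succ j ih =>
    obtain ⟨w, hw, hwx⟩ := ih
    refine ⟨(1 + (X - C x) ^ (N - 1) * u) ^ N * w.comp h + u, ?_, ?_⟩
    · have h1 : it h (j + 1) - X = (it h j - X).comp h + (h - X) := by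
        rw [it_add h j 1, sub_comp, X_comp]
        have : it h 1 = h := by
          rw [it_succ, it_zero, comp_X]
        rw [this]
        ring
      have h2 : h - C x = (X - C x) * (1 + (X - C x) ^ (N - 1) * u) := by
        have h3 : (X - C x) * (X - C x) ^ (N - 1) = (X - C x) ^ N := by
          rw [← pow_succ', Nat.sub_add_cancel (by omega)]
        calc h - C x = (X - C x) + (h - X) := by ring
          _ = (X - C x) + (X - C x) * (X - C x) ^ (N - 1) * u := by rw [h3, hu]
          _ = _ := by ring
      rw [h1, hw, mul_comp, pow_comp, sub_comp, X_comp, C_comp, h2, hu, mul_pow]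
      ring
    · rw [eval_add, eval_mul, eval_comp, hx, hwx, eval_pow, eval_add, eval_mul, eval_pow, eval_sub,
        eval_X, eval_C, sub_self, zero_pow (by omega), eval_one]
      push_cast
      ring

lemma rootMult_prod {ι : Type*} (s : Finset ι) (P : ι → K[X]) (x : K) (h : ∀ i ∈ s, P i ≠ 0) :
    (∏ i ∈ s, P i).rootMultiplicity x = ∑ i ∈ s, (P i).rootMultiplicity x := by
  classical
  induction s using Finset.induction_on with
  | empty => simp [rootMultiplicity_eq_zero]
  | insert a s ha ih =>
    have h1 : ∀ i ∈ s, P i ≠ 0 := fun i hi => h i (Finset.mem_insert_of_mem hi)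
    rw [Finset.prod_insert ha, Finset.sum_insert ha, rootMultiplicity_mul, ih h1]
    exact mul_ne_zero (h a (Finset.mem_insert_self a s)) (Finset.prod_ne_zero_iff.mpr h1)

end

/-- Moebius inversion of the indicator of multiples of `e` -/
lemma moebius_ind (n e : ℕ) (hn : 0 < n) (he : 0 < e) :
    ∑ d ∈ n.divisors, ArithmeticFunction.moebius (n / d) * (if e ∣ d then (1 : ℤ) else 0) =
      if e = n then 1 else 0 := by
  by_cases hen : e ∣ n
  · obtain ⟨N, rfl⟩ := hen
    have hN : 0 < N := Nat.pos_of_mul_pos_left hn
    have h1 : ∑ d ∈ (e * N).divisors, ArithmeticFunction.moebius (e * N / d) *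
        (if e ∣ d then (1 : ℤ) else 0) =
        ∑ q ∈ N.divisors, ArithmeticFunction.moebius (N / q) := by
      simp only [mul_ite, mul_one, mul_zero]
      rw [← Finset.sum_filter]
      refine (Finset.sum_bij (fun q _ => e * q) ?_ ?_ ?_ ?_).symm
      · intro q hq
        rw [Nat.mem_divisors] at hq
        rw [Finset.mem_filter, Nat.mem_divisors]
        exact ⟨⟨Nat.mul_dvd_mul_left e hq.1, hn.ne'⟩, Dvd.intro _ rfl⟩
      · intro a _ b _ hab
        exact Nat.eq_of_mul_eq_mul_left he hab
      · intro d hd
        rw [Finset.mem_filter, Nat.mem_divisors] at hd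
        obtain ⟨⟨hd1, _⟩, q, rfl⟩ := hd
        exact ⟨q, Nat.mem_divisors.mpr ⟨Nat.dvd_of_mul_dvd_mul_left he hd1, hN.ne'⟩, rfl⟩
      · intro q _
        rw [Nat.mul_div_mul_left _ _ he]
    rw [h1, Nat.sum_div_divisors N (fun d => ArithmeticFunction.moebius d)]
    have h2 := congrArg (fun F : ArithmeticFunction ℤ => F N)
      ArithmeticFunction.moebius_mul_coe_zeta
    simp only [ArithmeticFunction.coe_mul_zeta_apply, ArithmeticFunction.one_apply] at h2
    rw [h2]
    by_cases h3 : N = 1
    · simp [h3]
    · rw [if_neg h3, if_neg]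
      intro h4
      apply h3
      have : e * N = e * 1 := by omega
      exact Nat.eq_of_mul_eq_mul_left he this
  · have h1 : e ≠ n := by
      rintro rfl
      exact hen dvd_rfl
    rw [if_neg h1]
    refine Finset.sum_eq_zero fun d hd => ?_
    rw [Nat.mem_divisors] at hd
    rw [if_neg (fun h => hen (h.trans hd.1)), mul_zero]

end DynRoot

open DynRoot

/-- J3 -/
theorem dynatomic_root {K : Type*} [Field K] [CharZero K] (f : K[X]) (hf : 2 ≤ f.natDegree)
    (n : ℕ) (hn : 0 < n) (Φ : K[X])
    (hΦ : Φ * ∏ d ∈ n.divisors with ArithmeticFunction.moebius (n / d) = -1,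
        ((f.comp)^[d] X - X) =
      ∏ d ∈ n.divisors with ArithmeticFunction.moebius (n / d) = 1, ((f.comp)^[d] X - X))
    (x : K) (hx : Φ.IsRoot x) :
    Function.IsPeriodicPt (fun y => f.eval y) n x ∧
      (Function.minimalPeriod (fun y => f.eval y) x = n ∨
        IsPrimitiveRoot (∏ i ∈ Finset.range (Function.minimalPeriod (fun y => f.eval y) x),
            f.derivative.eval ((fun y => f.eval y)^[i] x))
          (n / Function.minimalPeriod (fun y => f.eval y) x)) := by
  classical
  set g : K → K := fun y => f.eval y with hg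
  set m := Function.minimalPeriod g x with hm
  -- the multiplicities
  set v : ℕ → ℕ := fun d => (it f d - X).rootMultiplicity x with hv
  have hne : ∀ d, d ∈ n.divisors → it f d - X ≠ 0 := fun d hd =>
    it_sub_ne_zero f hf (Nat.pos_of_mem_divisors hd)
  have hne1 : ∀ (a : ℤ), ∀ d ∈ (n.divisors.filter
      (fun d => ArithmeticFunction.moebius (n / d) = a)), it f d - X ≠ 0 := by
    intro a d hd
    exact hne d (Finset.mem_of_mem_filter d hd)
  have hprod : Φ * ∏ d ∈ n.divisors with ArithmeticFunction.moebius (n / d) = -1, (it f d - X) =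
      ∏ d ∈ n.divisors with ArithmeticFunction.moebius (n / d) = 1, (it f d - X) := hΦ
  have hR : ∏ d ∈ n.divisors with ArithmeticFunction.moebius (n / d) = 1, (it f d - X) ≠ 0 :=
    Finset.prod_ne_zero_iff.mpr (hne1 1)
  have hΦ0 : Φ ≠ 0 := by
    rintro rfl
    rw [zero_mul] at hprod
    exact hR hprod.symm
  have hmult := congrArg (rootMultiplicity x) hprod
  rw [rootMultiplicity_mul (by rw [hprod]; exact hR), rootMult_prod _ _ x (hne1 (-1)),
    rootMult_prod _ _ x (hne1 1)] at hmult
  have hΦpos : 0 < Φ.rootMultiplicity x := (rootMultiplicity_pos hΦ0).mpr hx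
  have hsum : ∑ d ∈ n.divisors, ArithmeticFunction.moebius (n / d) * (v d : ℤ) =
      (Φ.rootMultiplicity x : ℤ) := by
    have h1 : ∀ d ∈ n.divisors, ArithmeticFunction.moebius (n / d) * (v d : ℤ) =
        (if ArithmeticFunction.moebius (n / d) = 1 then (v d : ℤ) else 0) -
        (if ArithmeticFunction.moebius (n / d) = -1 then (v d : ℤ) else 0) := by
      intro d _
      rcases ArithmeticFunction.moebius_eq_or (n / d) with h | h | h
      · simp [h]
      · simp [h]
      · simp [h]
    rw [Finset.sum_congr rfl h1, Finset.sum_sub_distrib, ← Finset.sum_filter, ← Finset.sum_filter]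
    have h2 : ((Φ.rootMultiplicity x + ∑ d ∈ n.divisors with
        ArithmeticFunction.moebius (n / d) = -1, v d : ℕ) : ℤ) =
        ((∑ d ∈ n.divisors with ArithmeticFunction.moebius (n / d) = 1, v d : ℕ) : ℤ) := by
      exact_mod_cast hmult
    push_cast at h2
    linarith
  have hpos : ∀ d, d ∈ n.divisors → (0 < v d ↔ m ∣ d) := by
    intro d hd
    rw [hv]
    simp only
    rw [rootMultiplicity_pos (hne d hd), hm, ← Function.isPeriodicPt_iff_minimalPeriod_dvd,
      IsRoot, eval_sub, eval_X, eval_it, sub_eq_zero]
    rfl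
  -- periodicity
  have hper : m ∣ n := by
    by_contra hcon
    have h0 : ∀ d ∈ n.divisors, ArithmeticFunction.moebius (n / d) * (v d : ℤ) = 0 := by
      intro d hd
      have h1 : ¬ 0 < v d := by
        rw [hpos d hd]
        intro h
        exact hcon (h.trans (Nat.dvd_of_mem_divisors hd))
      have h2 : v d = 0 := by omega
      rw [h2]
      simp
    rw [Finset.sum_eq_zero h0] at hsum
    have : (0 : ℤ) < Φ.rootMultiplicity x := by exact_mod_cast hΦpos
    linarith
  have hm0 : 0 < m := Nat.pos_of_dvd_of_pos hper hn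
  refine ⟨Function.isPeriodicPt_iff_minimalPeriod_dvd.mpr hper, ?_⟩
  set lam := ∏ i ∈ Finset.range m, f.derivative.eval (g^[i] x) with hlam
  have hfix : (it f m).eval x = x := by
    rw [eval_it]
    exact Function.iterate_minimalPeriod
  have hder : (derivative (it f m)).eval x = lam := deriv_it f m x
  have hderq : ∀ q, (derivative (it f (m * q))).eval x = lam ^ q := by
    intro q
    rw [it_mul, deriv_it_fixed _ _ hfix, hder]
  set t := orderOf lam with ht
  -- multiplicity one
  have hone : ∀ q, 0 < q → ¬ t ∣ q → v (m * q) = 1 := by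
    intro q hq htq
    have hne' := it_sub_ne_zero f hf (Nat.mul_pos hm0 hq)
    have h1 : 0 < v (m * q) := by
      rw [hv]
      simp only
      rw [rootMultiplicity_pos hne', IsRoot, eval_sub, eval_X, it_mul, eval_it, sub_eq_zero]
      exact Function.iterate_fixed hfix q
    have h2 : ¬ 1 < v (m * q) := by
      rw [hv]
      simp only
      rw [one_lt_rootMultiplicity_iff_isRoot hne']
      rintro ⟨_, h3⟩
      rw [IsRoot, derivative_sub, derivative_X, eval_sub, eval_one, hderq, sub_eq_zero,
        ← orderOf_dvd_iff_pow_eq_one] at h3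
      exact htq h3
    omega
  by_cases ht0 : t = 0
  · left
    have h1 : ∀ d ∈ n.divisors, ArithmeticFunction.moebius (n / d) * (v d : ℤ) =
        ArithmeticFunction.moebius (n / d) * (if m ∣ d then (1 : ℤ) else 0) := by
      intro d hd
      congr 1
      split_ifs with h
      · obtain ⟨q, rfl⟩ := h
        have hq : 0 < q := Nat.pos_of_mul_pos_left (Nat.pos_of_mem_divisors hd)
        rw [hone q hq (by rw [ht0, zero_dvd_iff]; omega)]
        simp
      · have h2 : ¬ 0 < v d := by rwa [hpos d hd]
        have h3 : v d = 0 := by omega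
        rw [h3]
        simp
    rw [Finset.sum_congr rfl h1, moebius_ind n m hn hm0] at hsum
    by_contra hcon
    rw [if_neg hcon] at hsum
    have : (0 : ℤ) < Φ.rootMultiplicity x := by exact_mod_cast hΦpos
    linarith
  · have htpos : 0 < t := Nat.pos_of_ne_zero ht0
    set N := v (m * t) with hN
    have hmt : 0 < m * t := Nat.mul_pos hm0 htpos
    have hne' := it_sub_ne_zero f hf hmt
    have hN2 : 2 ≤ N := by
      have : 1 < N := by
        rw [hN, hv]
        simp only
        rw [one_lt_rootMultiplicity_iff_isRoot hne']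
        constructor
        · rw [IsRoot, eval_sub, eval_X, it_mul, eval_it, sub_eq_zero]
          exact Function.iterate_fixed hfix t
        · rw [IsRoot, derivative_sub, derivative_X, eval_sub, eval_one, hderq, sub_eq_zero,
            ht, pow_orderOf_eq_one]
      omega
    obtain ⟨u, hu, hux⟩ := exists_eq_pow_rootMultiplicity_mul_and_not_dvd (it f (m * t) - X) hne' x
    rw [dvd_iff_isRoot] at hux
    have hmul : ∀ j, 0 < j → v (m * (t * j)) = N := by
      intro j hj
      obtain ⟨w, hw, hwx⟩ := mult_iter (it f (m * t)) x N hN2 u hu hux j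
      rw [hv]
      simp only
      rw [← mul_assoc, it_mul, hw]
      apply rootMult_eq
      rw [hwx]
      exact mul_ne_zero (by exact_mod_cast hj.ne') hux
    have h1 : ∀ d ∈ n.divisors, ArithmeticFunction.moebius (n / d) * (v d : ℤ) =
        ArithmeticFunction.moebius (n / d) * (if m ∣ d then (1 : ℤ) else 0) +
        ((N : ℤ) - 1) *
          (ArithmeticFunction.moebius (n / d) * (if m * t ∣ d then (1 : ℤ) else 0)) := by
      intro d hd
      by_cases h : m ∣ d
      · obtain ⟨q, rfl⟩ := h
        have hq : 0 < q := Nat.pos_of_mul_pos_left (Nat.pos_of_mem_divisors hd)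
        rw [if_pos (Dvd.intro _ rfl)]
        by_cases h2 : t ∣ q
        · obtain ⟨j, rfl⟩ := h2
          rw [hmul j (Nat.pos_of_mul_pos_left hq), if_pos (Nat.mul_dvd_mul_left m ⟨j, rfl⟩)]
          ring
        · rw [hone q hq h2, if_neg (fun h => h2 (Nat.dvd_of_mul_dvd_mul_left hm0 h))]
          simp
      · have h2 : ¬ 0 < v d := by rwa [hpos d hd]
        have h3 : v d = 0 := by omega
        rw [h3, if_neg h, if_neg (fun h' => h (dvd_trans (Dvd.intro _ rfl) h'))]
        simp
    rw [Finset.sum_congr rfl h1, Finset.sum_add_distrib, ← Finset.mul_sum, moebius_ind n m hn hm0,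
      moebius_ind n (m * t) hn hmt] at hsum
    by_cases h2 : m = n
    · left
      exact h2
    · right
      rw [if_neg h2] at hsum
      have h3 : m * t = n := by
        by_contra hcon
        rw [if_neg hcon] at hsum
        have : (0 : ℤ) < Φ.rootMultiplicity x := by exact_mod_cast hΦpos
        linarith
      have h4 : n / m = t := by
        rw [← h3, Nat.mul_div_cancel_left t hm0]
      rw [h4]
      exact IsPrimitiveRoot.orderOf lam

end Pool.Agent.H9.Dyn
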