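import Mathlib
import Pool.Agent.H52.Count

/-! Pieces homeomorphic to (zero-dimensional) x (metrizable). -/

namespace Pool.Agent.H52

open Topology Set TopologicalSpace

/-- Selection on compact totally disconnected spaces. -/
theorem exists_locallyConstant_selection {Z Q : Type*} [TopologicalSpace Z] [CompactSpace Z]
    [T2Space Z] [TotallyDisconnectedSpace Z] (R : Z → Q → Prop)
    (hopen : ∀ q, IsOpen {z | R z q}) (hex : ∀ z, ∃ q, R z q) :
    ∃ c : Z → Q, IsLocallyConstant c ∧ ∀ z, R z (c z) := by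
  classical
  rcases isEmpty_or_nonempty Z with hZ | ⟨⟨z₀⟩⟩
  · exact ⟨fun z => isEmptyElim z, IsLocallyConstant.of_discrete _, fun z => isEmptyElim z⟩
  obtain ⟨q₀, -⟩ := hex z₀
  let p : Set Z → Prop := fun S => ∃ T : Set Z, IsClopen T ∧ S ⊆ T ∧
    ∃ c : Z → Q, IsLocallyConstant c ∧ ∀ z ∈ T, R z (c z)
  have hp : p univ := by
    refine isCompact_univ.induction_on (p := p) ?_ ?_ ?_ ?_
    · exact ⟨∅, isClopen_empty, Set.Subset.rfl, fun _ => q₀, IsLocallyConstant.const q₀,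
        fun z hz => absurd hz (Set.notMem_empty z)⟩
    · rintro s t hst ⟨T, hT, htT, hc⟩
      exact ⟨T, hT, hst.trans htT, hc⟩
    · rintro s t ⟨T₁, hT₁, hs, c₁, hc₁, hR₁⟩ ⟨T₂, hT₂, ht, c₂, hc₂, hR₂⟩
      refine ⟨T₁ ∪ T₂, hT₁.union hT₂, union_subset_union hs ht,
        fun z => if z ∈ T₁ then c₁ z else c₂ z, ?_, ?_⟩
      · rw [IsLocallyConstant.iff_exists_open]
        intro z
        by_cases hz : z ∈ T₁
        · obtain ⟨U, hU, hzU, hUc⟩ := hc₁.exists_open z
          refine ⟨U ∩ T₁, hU.inter hT₁.isOpen, ⟨hzU, hz⟩, fun x hx => ?_⟩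
          rw [if_pos hx.2, if_pos hz]
          exact hUc x hx.1
        · obtain ⟨U, hU, hzU, hUc⟩ := hc₂.exists_open z
          refine ⟨U ∩ T₁ᶜ, hU.inter hT₁.compl.isOpen, ⟨hzU, hz⟩, fun x hx => ?_⟩
          rw [if_neg hx.2, if_neg hz]
          exact hUc x hx.1
      · intro z hz
        by_cases hz1 : z ∈ T₁
        · simp only [if_pos hz1]; exact hR₁ z hz1
        · simp only [if_neg hz1]; exact hR₂ z (hz.resolve_left hz1)
    · intro z _
      obtain ⟨q, hq⟩ := hex z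
      obtain ⟨T, hT, hzT, hTR⟩ := compact_exists_isClopen_in_isOpen (hopen q) hq
      refine ⟨T, ?_, T, hT, Set.Subset.rfl, fun _ => q, IsLocallyConstant.const q,
        fun z' hz' => hTR hz'⟩
      rw [nhdsWithin_univ]
      exact hT.isOpen.mem_nhds hzT
  obtain ⟨T, -, hT, c, hc, hR⟩ := hp
  exact ⟨c, hc, fun z => hR z (hT (mem_univ z))⟩

variable {K : Type*} [TopologicalSpace K] [CompactSpace K] [T2Space K]

/-- A product piece. -/
theorem pieceGood_prod {Z M : Type*} [TopologicalSpace Z] [CompactSpace Z] [T2Space Z]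
    [TotallyDisconnectedSpace Z] [TopologicalSpace M] [CompactSpace M] [T2Space M]
    {F O : Set K} (hF : IsClosed F) (hO : IsOpen O) {V : Set M}
    (ψ : C(Z × M, K)) (hψ : Function.Injective ψ) (hψF : ∀ z, ψ z ∈ F)
    (hψO : ∀ z, ψ z ∈ O ↔ z.2 ∈ V) (hFO : ∀ y ∈ F, y ∈ O → y ∈ range ψ) {r : ℝ} (hr : 0 < r)
    {Q : AddSubgroup C(M, ℝ)} (hQ : RelGood r Vᶜ Q) :
    ∃ G : AddSubgroup C(K, ℝ), PieceGood r F (F \ O) G := by
  classical
  refine ⟨{ carrier := {h | (∀ x ∈ F \ O, h x = 0) ∧ ∀ z, h.comp (ψ.curry z) ∈ Q}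
            zero_mem' := ?_
            add_mem' := ?_
            neg_mem' := ?_ }, ?_, ?_, ?_, ?_⟩
  · rintro a b ⟨ha1, ha2⟩ ⟨hb1, hb2⟩
    refine ⟨fun x hx => by simp [ha1 x hx, hb1 x hx], fun z => ?_⟩
    exact Q.add_mem (ha2 z) (hb2 z)
  · refine ⟨fun x _ => rfl, fun z => ?_⟩
    exact Q.zero_mem
  · rintro a ⟨ha1, ha2⟩
    refine ⟨fun x hx => by simp [ha1 x hx], fun z => ?_⟩
    exact Q.neg_mem (ha2 z)
  · rintro h ⟨h1, -⟩ x hx
    exact h1 x hx
  · rintro h ⟨h1, h2⟩ ⟨y, hyF, hy⟩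
    have hyO : y ∈ O := by
      by_contra hcon
      exact hy (h1 y ⟨hyF, hcon⟩)
    obtain ⟨⟨z, x⟩, rfl⟩ := hFO y hyF hyO
    have hne : h.comp (ψ.curry z) ≠ 0 := by
      intro hcon
      exact hy (congrArg (fun k => k x) hcon)
    obtain ⟨x', hx'⟩ := hQ.2.1 _ (h2 z) hne
    exact ⟨ψ (z, x'), hψF _, hx'⟩
  · intro g hg
    have hex : ∀ z : Z, ∃ q : Q, ‖(g.comp ψ).curry z - (q : C(M, ℝ))‖ < r := by
      intro z
      obtain ⟨q, hq, hqr⟩ := hQ.2.2 ((g.comp ψ).curry z) (by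
        intro x hx
        have hx' : ψ (z, x) ∉ O := fun h => hx ((hψO (z, x)).1 h)
        exact hg _ ⟨hψF _, hx'⟩)
      refine ⟨⟨q, hq⟩, ?_⟩
      rw [ContinuousMap.norm_lt_iff _ hr]
      intro x
      simpa using hqr x
    obtain ⟨c, hc, hcR⟩ := exists_locallyConstant_selection
      (fun (z : Z) (q : Q) => ‖(g.comp ψ).curry z - (q : C(M, ℝ))‖ < r)
      (fun q => isOpen_lt (by fun_prop) continuous_const) hex
    let H0 : C(Z, C(M, ℝ)) := ⟨fun z => (c z : C(M, ℝ)), continuous_subtype_val.comp hc.continuous⟩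
    let H : C(Z × M, ℝ) := H0.uncurry
    have hH : ∀ z x, H (z, x) = (c z : C(M, ℝ)) x := fun z x => rfl
    have hψe : IsClosedEmbedding ψ := ψ.continuous.isClosedEmbedding hψ
    obtain ⟨h₁, hh₁⟩ := H.exists_extension hψe
    have hh₁' : ∀ z, h₁ (ψ z) = H z := fun z => congrArg (fun k => k z) hh₁
    let φ : K → ℝ := fun y => if y ∈ range ψ then h₁ y else 0
    have hφ1 : ∀ y ∈ range ψ, φ y = h₁ y := fun y hy => if_pos hy
    have hφ2 : ∀ y ∈ F \ O, φ y = 0 := by
      intro y hy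
      by_cases hyr : y ∈ range ψ
      · rw [hφ1 y hyr]
        obtain ⟨⟨z, x⟩, rfl⟩ := hyr
        rw [hh₁', hH]
        exact hQ.1 _ (c z).2 x (fun hx => hy.2 ((hψO (z, x)).2 hx))
      · exact if_neg hyr
    have hcl1 : IsClosed (range ψ) := hψe.isClosed_range
    have hcl2 : IsClosed (F \ O) := hF.sdiff hO
    have hcont : ContinuousOn φ (range ψ ∪ F \ O) := by
      refine ContinuousOn.union_of_isClosed ?_ ?_ hcl1 hcl2
      · exact (map_continuous h₁).continuousOn.congr hφ1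
      · exact continuousOn_const.congr hφ2
    let k : C(↥(range ψ ∪ F \ O), ℝ) :=
      ⟨(range ψ ∪ F \ O).domRestrict φ, continuousOn_iff_continuous_domRestrict.1 hcont⟩
    obtain ⟨h, hh⟩ := k.exists_restrict_eq (hcl1.union hcl2)
    have hhφ : ∀ y ∈ range ψ ∪ F \ O, h y = φ y := by
      intro y hy
      exact congrArg (fun l => l ⟨y, hy⟩) hh
    have hhψ : ∀ z x, h (ψ (z, x)) = (c z : C(M, ℝ)) x := by
      intro z x
      rw [hhφ _ (Or.inl ⟨_, rfl⟩), hφ1 _ ⟨_, rfl⟩, hh₁', hH]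
    refine ⟨h, ⟨?_, ?_⟩, ?_⟩
    · intro x hx
      rw [hhφ x (Or.inr hx), hφ2 x hx]
    · intro z
      have : h.comp (ψ.curry z) = (c z : C(M, ℝ)) := by
        ext x
        exact hhψ z x
      rw [this]
      exact (c z).2
    · intro y hy
      by_cases hyO : y ∈ O
      · obtain ⟨⟨z, x⟩, rfl⟩ := hFO y hy hyO
        rw [hhψ]
        have := hcR z
        rw [ContinuousMap.norm_lt_iff _ hr] at this
        simpa using this x
      · rw [hhφ y (Or.inr ⟨hy, hyO⟩), hφ2 y ⟨hy, hyO⟩, sub_zero]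
        exact hg y ⟨hy, hyO⟩
  · intro h hh
    refine ⟨fun x hx => hh x hx.1, fun z => ?_⟩
    have : h.comp (ψ.curry z) = 0 := by
      ext x
      exact hh _ (hψF (z, x))
    rw [this]
    exact Q.zero_mem

/-- In a nonempty locally compact metrizable space there is a nonempty open set with compact
closure on which the countable construction works. -/
theorem exists_good_open {M : Type*} [TopologicalSpace M] [MetrizableSpace M]
    [LocallyCompactSpace M] [Nonempty M] {r : ℝ} (hr : 1 < r) :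
    ∃ V : Set M, IsOpen V ∧ V.Nonempty ∧ IsCompact (closure V) ∧
      ∃ Q : AddSubgroup C(↥(closure V), ℝ), RelGood r ({x : ↥(closure V) | x.1 ∈ V}ᶜ) Q := by
  by_cases hiso : ∃ m : M, IsOpen ({m} : Set M)
  · obtain ⟨m, hm⟩ := hiso
    have hcl : closure ({m} : Set M) = {m} := closure_singleton
    have hsub : Subsingleton ↥(closure ({m} : Set M)) := by
      rw [hcl]; infer_instance
    refine ⟨{m}, hm, singleton_nonempty m, by rw [hcl]; exact isCompact_singleton, ?_⟩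
    refine exists_relGood_subsingleton ?_ hr
    ext x
    have hx : x.1 ∈ ({m} : Set M) := hcl.subset x.2
    simp only [mem_compl_iff, mem_ofPred_eq, mem_empty_iff_false, iff_false, not_not]
    exact hx
  · push Not at hiso
    obtain ⟨m⟩ := ‹Nonempty M›
    obtain ⟨C, hC, hmC⟩ := exists_compact_mem_nhds m
    have hcl : closure (interior C) ⊆ C := closure_minimal interior_subset hC.isClosed
    have hcomp : IsCompact (closure (interior C)) := hC.of_isClosed_subset isClosed_closure hcl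
    have : CompactSpace ↥(closure (interior C)) := isCompact_iff_compactSpace.1 hcomp
    refine ⟨interior C, isOpen_interior, ⟨m, mem_interior_iff_mem_nhds.2 hmC⟩, hcomp, ?_⟩
    refine exists_relGood_metrizable ?_ ?_ hr
    · exact (isOpen_interior.preimage continuous_subtype_val).isClosed_compl
    · intro x hx hopen
      have hxI : x.1 ∈ interior C := not_not.1 hx
      obtain ⟨U, hU, hUx⟩ := isOpen_induced_iff.1 hopen
      refine hiso x.1 ?_
      have : ({x.1} : Set M) = U ∩ interior C := by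
        ext y
        constructor
        · rintro rfl
          refine ⟨?_, hxI⟩
          have : x ∈ Subtype.val ⁻¹' U := by rw [hUx]; rfl
          exact this
        · rintro ⟨hyU, hyI⟩
          have : (⟨y, subset_closure hyI⟩ : ↥(closure (interior C))) ∈ Subtype.val ⁻¹' U := hyU
          rw [hUx] at this
          exact congrArg Subtype.val this
      rw [this]
      exact hU.inter isOpen_interior

/-- Every relatively open product piece gives a good piece. -/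
theorem exists_piece {F U : Set K} (hF : IsClosed F) (hU : IsOpen U) (hne : (U ∩ F).Nonempty)
    {Z M : Type*} [TopologicalSpace Z] [TopologicalSpace M] [TotallyDisconnectedSpace Z]
    [MetrizableSpace M] (φ : ↥(U ∩ F) ≃ₜ Z × M) {r : ℝ} (hr : 1 < r) :
    ∃ F' : Set K, IsClosed F' ∧ F' ⊂ F ∧ ∃ G : AddSubgroup C(K, ℝ), PieceGood r F F' G := by
  classical
  have hlc : LocallyCompactSpace ↥(U ∩ F) :=
    IsLocallyClosed.locallyCompactSpace ⟨U, F, hU, hF, rfl⟩
  have hlcZM : LocallyCompactSpace (Z × M) := φ.symm.isClosedEmbedding.locallyCompactSpace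
  have hT2 : T2Space (Z × M) := φ.symm.isEmbedding.t2Space
  obtain ⟨y₀, hy₀⟩ := hne
  set w₀ : Z × M := φ ⟨y₀, hy₀⟩ with hw₀
  have : Nonempty M := ⟨w₀.2⟩
  have hZemb : IsClosedEmbedding (fun z : Z => (z, w₀.2)) := by
    refine ⟨isEmbedding_prodMkLeft _, ?_⟩
    have : range (fun z : Z => (z, w₀.2)) = Prod.snd ⁻¹' {w₀.2} := by
      ext ⟨z, m⟩
      constructor
      · rintro ⟨z', h⟩
        exact (congrArg Prod.snd h).symm
      · intro h
        exact ⟨z, Prod.ext rfl (Eq.symm h)⟩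
    rw [this]
    exact isClosed_singleton.preimage continuous_snd
  have hZT2 : T2Space Z := hZemb.isEmbedding.t2Space
  have hMemb : IsClosedEmbedding (fun m : M => (w₀.1, m)) := by
    refine ⟨isEmbedding_prodMkRight _, ?_⟩
    have : range (fun m : M => (w₀.1, m)) = Prod.fst ⁻¹' {w₀.1} := by
      ext ⟨z, m⟩
      constructor
      · rintro ⟨z', h⟩
        exact (congrArg Prod.fst h).symm
      · intro h
        exact ⟨m, Prod.ext (Eq.symm h) rfl⟩
    rw [this]
    exact isClosed_singleton.preimage continuous_fst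
  have hZlc : LocallyCompactSpace Z := hZemb.locallyCompactSpace
  have hMlc : LocallyCompactSpace M := hMemb.locallyCompactSpace
  -- compact open subset of Z
  obtain ⟨A, hAo, hAc, hA⟩ : ∃ A : Set Z, IsOpen A ∧ IsCompact A ∧ w₀.1 ∈ A := by
    obtain ⟨C, hC, hzC⟩ := exists_compact_mem_nhds w₀.1
    obtain ⟨A, hA, hzA, hAC⟩ := (loc_compact_Haus_tot_disc_of_zero_dim (H := Z)).mem_nhds_iff.1 hzC
    exact ⟨A, hA.isOpen, hC.of_isClosed_subset hA.isClosed hAC, hzA⟩
  obtain ⟨V, hV, hVne, hVc, Q, hQ⟩ := exists_good_open (M := M) hr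
  have : CompactSpace ↥(closure V) := isCompact_iff_compactSpace.1 hVc
  have : CompactSpace A := isCompact_iff_compactSpace.1 hAc
  let ψ : C(A × ↥(closure V), K) :=
    ⟨fun w => (φ.symm (w.1.1, w.2.1)).1, by fun_prop⟩
  have hψ : Function.Injective ψ := by
    rintro ⟨a, m⟩ ⟨a', m'⟩ h
    have h1 : φ.symm (a.1, m.1) = φ.symm (a'.1, m'.1) := Subtype.ext h
    have h2 := φ.symm.injective h1
    exact Prod.ext (Subtype.ext (congrArg Prod.fst h2)) (Subtype.ext (congrArg Prod.snd h2))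
  have hopen : IsOpen (φ ⁻¹' (A ×ˢ V)) := (hAo.prod hV).preimage φ.continuous
  obtain ⟨O₁, hO₁, hO₁eq⟩ := isOpen_induced_iff.1 hopen
  have hO₁' : ∀ y : ↥(U ∩ F), y.1 ∈ O₁ ↔ φ y ∈ A ×ˢ V := by
    intro y
    have : y ∈ Subtype.val ⁻¹' O₁ ↔ y ∈ φ ⁻¹' (A ×ˢ V) := by rw [hO₁eq]
    exact this
  have hψO : ∀ w, ψ w ∈ O₁ ∩ U ↔ w.2 ∈ {x : ↥(closure V) | x.1 ∈ V} := by
    rintro ⟨a, m⟩
    have h1 : ψ (a, m) ∈ O₁ ↔ φ (φ.symm (a.1, m.1)) ∈ A ×ˢ V := hO₁' _
    rw [φ.apply_symm_apply] at h1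
    constructor
    · rintro ⟨h, -⟩
      exact (h1.1 h).2
    · intro h
      exact ⟨h1.2 ⟨a.2, h⟩, (φ.symm (a.1, m.1)).2.1⟩
  obtain ⟨G, hG⟩ := pieceGood_prod (O := O₁ ∩ U) hF (hO₁.inter hU) ψ hψ
    (fun w => (φ.symm (w.1.1, w.2.1)).2.2) hψO (by
      rintro y hyF ⟨hyO, hyU⟩
      have h1 := (hO₁' ⟨y, hyU, hyF⟩).1 hyO
      refine ⟨(⟨_, h1.1⟩, ⟨_, subset_closure h1.2⟩), ?_⟩
      change (φ.symm ((φ ⟨y, hyU, hyF⟩).1, (φ ⟨y, hyU, hyF⟩).2)).1 = y
      rw [Prod.mk.eta, φ.symm_apply_apply]) (by linarith) hQ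
  refine ⟨F \ (O₁ ∩ U), hF.sdiff (hO₁.inter hU), ⟨sdiff_subset, fun hcon => ?_⟩, G, hG⟩
  obtain ⟨m, hm⟩ := hVne
  have h1 : ψ (⟨w₀.1, hA⟩, ⟨m, subset_closure hm⟩) ∈ O₁ ∩ U := (hψO _).2 hm
  have h2 : ψ (⟨w₀.1, hA⟩, ⟨m, subset_closure hm⟩) ∈ F := (φ.symm (w₀.1, m)).2.2
  exact (hcon h2).2 h1

end Pool.Agent.H52
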